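import Pool.Agent.helper83.LS.Spec3
import Pool.Agent.helper24.LS.TR
set_option autoImplicit false

/-!
# Two readable classes contained in `HypB'` and `HypD`
-/

namespace LSH

/-- the parent of `v` is a neighbour of `v` which is not a child of `v` -/
theorem CX_children_le {n : ℕ} (T : SimpleGraph (Fin n)) (hT : T.IsTree) (r v : Fin n)
    (hv : v ≠ r) :
    {w | T.Adj v w ∧ T.dist r w = T.dist r v + 1}.ncard + 1 ≤ (T.neighborSet v).ncard := by
  obtain ⟨p, ⟨hp1, hp2⟩, _⟩ := (TR n T hT r).2.1 v hv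
  have hnot : p ∉ {w | T.Adj v w ∧ T.dist r w = T.dist r v + 1} := by
    rintro ⟨_, h⟩
    omega
  have h1 : (insert p {w | T.Adj v w ∧ T.dist r w = T.dist r v + 1}).ncard
      ≤ (T.neighborSet v).ncard := by
    apply Set.ncard_le_ncard _ (Set.toFinite _)
    rintro w (rfl | hw)
    · exact hp1.symm
    · exact hw.1
  rwa [Set.ncard_insert_of_notMem hnot (Set.toFinite _)] at h1

/-- no two vertices of degree 3 are adjacent -/
theorem CX_b {n : ℕ} (T : SimpleGraph (Fin n)) (hT : T.IsTree)
    (hdeg : ∀ v, (T.neighborSet v).ncard ≤ 3)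
    (h : ∀ u v, T.Adj u v → (T.neighborSet u).ncard = 3 → (T.neighborSet v).ncard ≠ 3)
    (r : Fin n) : HypB' T r r := by
  intro v hv
  have hvr : v ≠ r := by
    rintro rfl
    exact hv (by simp [onPath])
  have h1 := CX_children_le T hT r v hvr
  have h2 : {w | T.Adj v w ∧ T.dist r w = T.dist r v + 1 ∧ (T.neighborSet w).ncard = 3}.ncard
      ≤ {w | T.Adj v w ∧ T.dist r w = T.dist r v + 1}.ncard := by
    apply Set.ncard_le_ncard _ (Set.toFinite _)
    rintro w ⟨h3, h4, _⟩
    exact ⟨h3, h4⟩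
  by_cases h3 : (T.neighborSet v).ncard = 3
  · have : {w | T.Adj v w ∧ T.dist r w = T.dist r v + 1 ∧ (T.neighborSet w).ncard = 3} = ∅ := by
      ext w
      simp only [Set.mem_setOf_eq, Set.mem_empty_iff_false, iff_false, not_and]
      intro h4 _ h5
      exact h v w h4 h3 h5
    rw [this]
    simp
  · have := hdeg v
    omega

/-- a vertex with at most one neighbour -/
theorem CX_leaf {n : ℕ} (T : SimpleGraph (Fin n)) (hT : T.IsTree) :
    ∃ r : Fin n, (T.neighborSet r).ncard ≤ 1 := by
  classical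
  have : Nonempty (Fin n) := hT.isConnected.nonempty
  obtain ⟨r₀⟩ := this
  obtain ⟨e, _, he⟩ := Finset.exists_max_image Finset.univ (fun v => T.dist r₀ v)
    ⟨r₀, Finset.mem_univ _⟩
  refine ⟨e, ?_⟩
  by_cases hne : e = r₀
  · subst hne
    have : T.neighborSet e = ∅ := by
      ext w
      simp only [SimpleGraph.mem_neighborSet, Set.mem_empty_iff_false, iff_false]
      intro hw
      have h1 := he w (Finset.mem_univ _)
      rcases (TR n T hT e).1 e w hw with h | h
      · rw [SimpleGraph.dist_self] at h h1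
        omega
      · rw [SimpleGraph.dist_self] at h
        omega
    rw [this]
    simp
  · obtain ⟨p, ⟨hp1, hp2⟩, hp3⟩ := (TR n T hT r₀).2.1 e hne
    have : T.neighborSet e ⊆ {p} := by
      intro w hw
      rw [Set.mem_singleton_iff]
      apply hp3
      rcases (TR n T hT r₀).1 e w hw with h | h
      · have h1 := he w (Finset.mem_univ _)
        omega
      · exact ⟨SimpleGraph.Adj.symm hw, h⟩
    calc (T.neighborSet e).ncard ≤ ({p} : Set (Fin n)).ncard :=
          Set.ncard_le_ncard this (Set.toFinite _)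
      _ = 1 := Set.ncard_singleton p

/-- the vertices of degree 3 induce disjoint paths, and distinct paths are at distance at
least 5 -/
theorem CX_c {n : ℕ} (T : SimpleGraph (Fin n)) (hT : T.IsTree)
    (hdeg : ∀ v, (T.neighborSet v).ncard ≤ 3)
    (h2 : ∀ v, (T.neighborSet v).ncard = 3 →
      {w | T.Adj v w ∧ (T.neighborSet w).ncard = 3}.ncard ≤ 2)
    (h5 : ∀ u v, (T.neighborSet u).ncard = 3 → (T.neighborSet v).ncard = 3 → T.dist u v ≤ 4 →
      ∀ w, T.dist u v = T.dist u w + T.dist w v → (T.neighborSet w).ncard = 3) :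
    ∃ r s, HypD n T r s := by
  obtain ⟨r, hr⟩ := CX_leaf T hT
  refine ⟨r, r, by omega, fun v => ?_⟩
  by_cases hvr : v = r
  · left
    subst hvr
    simp
  right
  by_cases hv : {w | T.Adj v w ∧ T.dist r w = T.dist r v + 1 ∧
      (T.neighborSet w).ncard = 3}.ncard ≤ 1
  · exact Or.inl hv
  right
  intro u huv hd hd4
  by_contra hu
  -- u has degree 3
  have hur : u ≠ r := by
    rintro rfl
    have : {w | T.Adj u w ∧ T.dist u w = T.dist u u + 1}.ncard ≤ (T.neighborSet u).ncard := by
      apply Set.ncard_le_ncard _ (Set.toFinite _)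
      rintro w ⟨h, _⟩
      exact h
    omega
  have hu1 := CX_children_le T hT r u hur
  have hu2 := hdeg u
  have hu3 : (T.neighborSet u).ncard = 3 := by omega
  have hv1 := CX_children_le T hT r v hvr
  have hv2 := hdeg v
  have hv4 : {w | T.Adj v w ∧ T.dist r w = T.dist r v + 1 ∧ (T.neighborSet w).ncard = 3}.ncard
      ≤ {w | T.Adj v w ∧ T.dist r w = T.dist r v + 1}.ncard := by
    apply Set.ncard_le_ncard _ (Set.toFinite _)
    rintro w ⟨h3, h4, _⟩
    exact ⟨h3, h4⟩
  have hv3 : (T.neighborSet v).ncard = 3 := by omega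
  -- the parent of v is on the path from u to v
  obtain ⟨p, ⟨hp1, hp2⟩, hpu⟩ := (TR n T hT r).2.1 v hvr
  -- the neighbour of v towards u
  have hconn := hT.isConnected
  obtain ⟨q, hq1, hq2⟩ : ∃ q, T.Adj q v ∧ T.dist u v = T.dist u q + 1 := by
    obtain ⟨q, ⟨hq1, hq2⟩, _⟩ := (TR n T hT u).2.1 v (Ne.symm huv)
    exact ⟨q, hq1, hq2⟩
  have hqv : T.dist q v = 1 := SimpleGraph.dist_eq_one_iff_adj.2 hq1
  have hq3 : (T.neighborSet q).ncard = 3 := h5 u v hu3 hv3 hd4 q (by omega)
  -- q is not a child of v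
  have hqc : ¬ T.dist r q = T.dist r v + 1 := by
    intro hq
    have := hconn.dist_triangle (u := r) (v := u) (w := q)
    omega
  have hsub : (insert q {w | T.Adj v w ∧ T.dist r w = T.dist r v + 1 ∧
      (T.neighborSet w).ncard = 3}).ncard ≤
      {w | T.Adj v w ∧ (T.neighborSet w).ncard = 3}.ncard := by
    apply Set.ncard_le_ncard _ (Set.toFinite _)
    rintro w (rfl | ⟨h3, _, h4⟩)
    · exact ⟨hq1.symm, hq3⟩
    · exact ⟨h3, h4⟩
  rw [Set.ncard_insert_of_notMem (by rintro ⟨_, h, _⟩; exact hqc h) (Set.toFinite _)] at hsub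
  have := h2 v hv3
  omega

end LSH
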