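import Pool.Agent.helper11.LS.AB
import Pool.Agent.helper25.LS.AU
import Pool.Agent.helper28.LS.CC
import Pool.Agent.helper66.LS.DL
import Pool.Agent.helper97.LS.DP
import Pool.Agent.helper79.LS.DW
import Pool.Agent.helper32.LS.EE
import Pool.Agent.helper90.LS.EM
import Pool.Agent.helper64.LS.FA
import Pool.Agent.helper34.LS.GI
import Pool.Agent.helper82.LS.KL
import Pool.Agent.helper98.LS.OB
import Pool.Agent.helper24.LS.RE
import Pool.Agent.helper31.LS.RL1
import Pool.Agent.helper44.LS.RL2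
import Pool.Agent.helper77.LS.RP
import Pool.Agent.helper6.LS.RW
import Pool.Agent.helper24.LS.RW1
import Pool.Agent.helper87.LS.RW2
import Pool.Agent.helper32.LS.SEP
import Pool.Agent.helper78.LS.SG
import Pool.Agent.helper30.LS.SM
import Pool.Agent.helper92.LS.SX
import Pool.Agent.helper91.LS.SY
import Pool.Agent.helper24.LS.TR
import Pool.Agent.helper22.LS.U3
import Pool.Agent.helper20.LS.U3a
import Pool.Agent.helper46.LS.U3b
import Pool.Agent.helper16.LS.U3c
import Pool.Agent.helper91.LS.U3d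
import Pool.Agent.helper51.LS.U3e
import Pool.Agent.helper72.LS.ZP
set_option autoImplicit false

namespace LSH

theorem asm_DW : DW_stmt := DW SM GI EE
theorem asm_DP : DP_stmt := DP SM GI
theorem asm_DL : DL_stmt := DL SM
theorem asm_FA : FA_stmt := FA OB EE asm_DL
theorem asm_RP : RP_stmt := RP OB EE AU asm_DW
theorem asm_RW1 : RW1_stmt := RW1 OB EE AB asm_DP
theorem asm_RW2 : RW2_stmt := RW2 OB EE AB asm_DP asm_DW
theorem asm_RW : RW_stmt := RW asm_RW1 asm_RW2 SX
theorem asm_RL1 : RL1_stmt := RL1 asm_FA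
theorem asm_RL2 : RL2_stmt := RL2 OB EE asm_DW SY
theorem asm_U3 : U3_stmt :=
  U3 (U3a OB EE AU asm_RL1 asm_FA) (U3b OB EE AU asm_FA asm_RL1) (U3c asm_FA asm_RL1 AU OB EE)
    (U3d AU EE asm_FA asm_RL1) (U3e asm_FA OB EE AU)
theorem asm_CC : CC_stmt := CC asm_RP asm_RW asm_RL1 asm_RL2 asm_U3
theorem asm_RE : RE_stmt := RE TR
theorem asm_KL : KL_stmt := KL TR
theorem asm_EM : EM_stmt := EM ZP SG TR OB

theorem asm_len {V : Type} (t : LT V) : t.verts.length = t.shape.size := by
  induction t with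
  | leaf v => rfl
  | un v t ih => simp [LT.verts, LT.shape, BT.size, ih]
  | br v s t ihs iht => simp [LT.verts, LT.shape, BT.size, ihs, iht]

theorem asm_size {n : ℕ} (t : LT (Fin n)) (hn : t.verts.Nodup) (ha : ∀ v, v ∈ t.verts) :
    t.shape.size = n := by
  have h1 : t.verts.toFinset = Finset.univ := by
    ext v
    simp [ha v]
  have h2 := List.toFinset_card_of_nodup hn
  rw [h1, Finset.card_univ, Fintype.card_fin] at h2
  rw [← asm_len, ← h2]

theorem FIN : FIN_stmt := by
  intro n T hT hdeg ⟨r, hr⟩ P hP hgen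
  obtain ⟨t, htr, htn, htv, hte⟩ := asm_RE n T hT hdeg r hr.1
  have hcl : Cl t.shape := asm_KL n T hT hdeg r hr t htr htn hte
  have hL : LL t.shape := (asm_CC _ hcl).1
  have hgen' : Gen (P : Set Pt) := fun a ha b hb hab => hgen a ha b hb hab
  have hsz : t.shape.size = n := asm_size t htn htv
  obtain ⟨d, hd, _⟩ := hL P (by rw [hsz]; exact hP) hgen'
  exact asm_EM n T hT r t htr htn htv hte P hP hgen' d hd

end LSH
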