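import Pool.Agent.helper83.LS.Spec2

set_option autoImplicit false

/-!
# Project ls, part 3: the labelling version and arbitrary paths
-/

namespace LSH

/-- the closure of the rules: `K 0 t` gives `P(t)`, `K 1 t` gives `W(t)`, `K 2 t` gives `L(t)` -/
inductive K : ℕ → BT → Prop
  | leaf (i : ℕ) : K i .leaf
  | un0 (i : ℕ) (t : BT) : K 1 t → K i (.un t)
  | un2 (t : BT) : K 2 t → K 2 (.un t)
  | un3 (i : ℕ) (t : BT) : 1 ≤ i → K 2 t → K i (.un (.un (.un t)))
  | br1 (i : ℕ) (s t : BT) : 1 ≤ i → K 0 s → K 1 t → K i (.br s t)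
  | br1' (i : ℕ) (s t : BT) : 1 ≤ i → K 1 s → K 0 t → K i (.br s t)
  | br2 (s t : BT) : K 2 s → K 1 t → K 2 (.br s t)
  | br2' (s t : BT) : K 1 s → K 2 t → K 2 (.br s t)

/-- `KK` (induction; rules `RP`, `RW`, `RL1`, `RL3`, `U3`). -/
def KK_stmt : Prop :=
  ∀ (i : ℕ) (t : BT), K i t → LL t ∧ (i ≤ 1 → WW t) ∧ (i = 0 → PP t)

/-- the children of `v` in the tree `T` rooted at `r` -/
def kids {n : ℕ} (T : SimpleGraph (Fin n)) (r v : Fin n) : Set (Fin n) :=
  {w | T.Adj v w ∧ T.dist r w = T.dist r v + 1}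

/-- a labelling `ρ` of the vertices by 0, 1, 2 (property P, W, L) which respects the rules -/
def Lab {n : ℕ} (T : SimpleGraph (Fin n)) (r : Fin n) (ρ : Fin n → ℕ) : Prop :=
  ∀ v, ρ v ≤ 2 ∧
    (kids T r v = ∅ ∨
    (∃ w, kids T r v = {w} ∧
      (ρ w ≤ 1 ∨ ρ v = 2 ∨
        (1 ≤ ρ v ∧ ∃ w₂ w₃, kids T r w = {w₂} ∧ kids T r w₂ = {w₃}))) ∨
    (∃ w w', w ≠ w' ∧ kids T r v = {w, w'} ∧
      ((1 ≤ ρ v ∧ ρ w = 0 ∧ ρ w' ≤ 1) ∨ (ρ v = 2 ∧ ρ w ≤ 1))))

/-- `LK`: a labelling gives `K (ρ r)` of the shape of the rooted tree (induction over the subtrees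
of the labelled tree `t`: for a vertex `v` of `t` with subtree `t'`, the roots of the child trees
of `t'` are exactly `kids T r v`; `K` is monotone in the first argument up to 2). -/
def LK_stmt : Prop :=
  ∀ (n : ℕ) (T : SimpleGraph (Fin n)) (r : Fin n) (ρ : Fin n → ℕ), Lab T r ρ →
    ∀ t : LT (Fin n), t.root = r → t.verts.Nodup →
      (∀ u v, (u, v) ∈ t.edg ↔ (T.Adj u v ∧ T.dist r v = T.dist r u + 1)) →
      K (ρ r) t.shape

/-- `v` is on the path from `r` to `s` -/
def onPath {n : ℕ} (T : SimpleGraph (Fin n)) (r s v : Fin n) : Prop :=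
  T.dist r s = T.dist r v + T.dist v s

/-- every vertex off the path from `r` to `s` has at most one child of degree 3 -/
def HypB' {n : ℕ} (T : SimpleGraph (Fin n)) (r s : Fin n) : Prop :=
  ∀ v, ¬ onPath T r s v →
    {w | T.Adj v w ∧ T.dist r w = T.dist r v + 1 ∧ (T.neighborSet w).ncard = 3}.ncard ≤ 1

/-- `RRT` (re-rooting): the path can be prolonged beyond `r` to a leaf `e`. Proof: among the
vertices `e` such that `r` is on the path from `e` to `s`, take one with `T.dist e s` maximal; it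
is a leaf (a neighbour `x` of `e` not on the path from `e` to `s` would have
`dist x s = dist e s + 1` and `r` on the path from `x` to `s`).  If `v` is off the path from `e`
to `s`, then it is off the path from `r` to `s`, and a neighbour `w` of `v` has
`dist e w = dist e v + 1` iff `dist r w = dist r v + 1` (in a tree both say that `w` is not the
next vertex on the way from `v` to the path). -/
def RRT_stmt : Prop :=
  ∀ (n : ℕ) (T : SimpleGraph (Fin n)), T.IsTree → ∀ r s : Fin n, HypB' T r s →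
    ∃ e : Fin n, (T.neighborSet e).ncard ≤ 1 ∧ HypB' T e s

/-- `CB`: if every vertex off the path has at most two neighbours off the path (that is, the
components of `T` minus the path are paths), then `HypB'`: a child `w` of degree 3 of a vertex `v`
off the path would have three neighbours, all off the path (`w` is off the path; a neighbour `x`
of `w` on the path would be strictly nearer to the path: the way from `v` to the path and the way
from `w` through `x` to the path would give a cycle `v - w - x - path - v`). -/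
def CB_stmt : Prop :=
  ∀ (n : ℕ) (T : SimpleGraph (Fin n)), T.IsTree → ∀ r s : Fin n,
    (∀ v, ¬ onPath T r s v → {w | T.Adj v w ∧ ¬ onPath T r s w}.ncard ≤ 2) → HypB' T r s

/-- the final theorem -/
def FINAL_stmt : Prop :=
  ∀ (n : ℕ) (T : SimpleGraph (Fin n)), T.IsTree → (∀ v, (T.neighborSet v).ncard ≤ 3) →
    ((∃ r s, ∀ v, ¬ onPath T r s v → {w | T.Adj v w ∧ ¬ onPath T r s w}.ncard ≤ 2) ∨
      (∃ r s, HypB' T r s) ∨ (∃ r s, HypD n T r s) ∨ (∃ r ρ, Lab T r ρ)) →
    ∀ P : Finset (ℝ × ℝ), P.card = n →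
      (∀ p ∈ P, ∀ q ∈ P, p ≠ q → p.1 ≠ q.1 ∧ p.2 ≠ q.2) → Emb n T P

end LSH
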