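import Pool.Agent.helper83.LS.Asm
import Pool.Agent.helper83.LS.Spec3
import Pool.Agent.helper59.LS.SWP
import Pool.Agent.helper21.LS.RL3a
import Pool.Agent.helper25.LS.RL3b
import Pool.Agent.helper78.LS.RL3
import Pool.Agent.helper32.LS.CCP
import Pool.Agent.helper92.LS.KLP
import Pool.Agent.helper20.LS.KK
import Pool.Agent.helper21.LS.LK
import Pool.Agent.helper79.LS.CB
import Pool.Agent.helper92.LS.RRT
import Pool.Agent.helper83.LS.CX
set_option autoImplicit false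

namespace LSH

theorem asm_RL3a : RL3a_stmt := RL3a OB EE asm_DW SY asm_FA
theorem asm_RL3 : RL3_stmt := RL3 asm_RL3a (RL3b SM asm_RL3a) SWP
theorem asm_CCP : CCP_stmt := CCP asm_CC asm_RL1 asm_RL3
theorem asm_KLP : KLP_stmt := KLP TR

theorem FIND : FIND_stmt := by
  intro n T hT hdeg ⟨r, s, hr⟩ P hP hgen
  obtain ⟨t, htr, htn, htv, hte⟩ := asm_RE n T hT hdeg r hr.1
  have hcl : ClP t.shape := asm_KLP n T hT hdeg r s hr t htr htn htv hte
  have hL : LL t.shape := asm_CCP _ hcl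
  have hgen' : Gen (P : Set Pt) := fun a ha b hb hab => hgen a ha b hb hab
  have hsz : t.shape.size = n := asm_size t htn htv
  obtain ⟨d, hd, _⟩ := hL P (by rw [hsz]; exact hP) hgen'
  exact asm_EM n T hT r t htr htn htv hte P hP hgen' d hd

/-- the labelling version -/
theorem FINA (hKK : KK_stmt) (hLK : LK_stmt) :
    ∀ (n : ℕ) (T : SimpleGraph (Fin n)), T.IsTree → (∀ v, (T.neighborSet v).ncard ≤ 3) →
    (∃ r ρ, Lab T r ρ) → ∀ P : Finset (ℝ × ℝ), P.card = n →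
      (∀ p ∈ P, ∀ q ∈ P, p ≠ q → p.1 ≠ q.1 ∧ p.2 ≠ q.2) → Emb n T P := by
  intro n T hT hdeg ⟨r, ρ, hr⟩ P hP hgen
  have hdr : (T.neighborSet r).ncard ≤ 2 := by
    have hsub : T.neighborSet r ⊆ kids T r r := by
      intro w hw
      refine ⟨hw, ?_⟩
      rcases (TR n T hT r).1 r w hw with h | h
      · exact h
      · simp at h
    have hle : (T.neighborSet r).ncard ≤ (kids T r r).ncard :=
      Set.ncard_le_ncard hsub (Set.toFinite _)
    rcases (hr r).2 with h | ⟨w, h, _⟩ | ⟨w, w', _, h, _⟩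
    · rw [h] at hle; simp at hle; omega
    · rw [h, Set.ncard_singleton] at hle; omega
    · rw [h] at hle
      exact le_trans hle (Set.ncard_insert_le _ _ |>.trans (by simp))
  obtain ⟨t, htr, htn, htv, hte⟩ := asm_RE n T hT hdeg r hdr
  have hL : LL t.shape := (hKK _ _ (hLK n T r ρ hr t htr htn hte)).1
  have hgen' : Gen (P : Set Pt) := fun a ha b hb hab => hgen a ha b hb hab
  have hsz : t.shape.size = n := asm_size t htn htv
  obtain ⟨d, hd, _⟩ := hL P (by rw [hsz]; exact hP) hgen'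
  exact asm_EM n T hT r t htr htn htv hte P hP hgen' d hd

theorem FINAL_of (hKK : KK_stmt) (hLK : LK_stmt) (hRRT : RRT_stmt) (hCB : CB_stmt) :
    FINAL_stmt := by
  intro n T hT hdeg h P hP hgen
  have key : (∃ r s, HypB' T r s) → Emb n T P := by
    rintro ⟨r, s, hrs⟩
    obtain ⟨e, he, hes⟩ := hRRT n T hT r s hrs
    refine FIND n T hT hdeg ⟨e, s, by omega, fun v => ?_⟩ P hP hgen
    by_cases hv : onPath T e s v
    · exact Or.inl hv
    · exact Or.inr (Or.inl (hes v hv))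
  rcases h with ⟨r, s, h⟩ | h | h | h
  · exact key ⟨r, s, hCB n T hT r s h⟩
  · exact key h
  · exact FIND n T hT hdeg h P hP hgen
  · exact FINA hKK hLK n T hT hdeg h P hP hgen

theorem FINAL : FINAL_stmt :=
  FINAL_of (KK asm_RP asm_RW asm_RL1 asm_RL3 asm_U3) LK (RRT TR) CB

/-- the final theorem with the readable classes -/
theorem FINAL2 : ∀ (n : ℕ) (T : SimpleGraph (Fin n)), T.IsTree →
    (∀ v, (T.neighborSet v).ncard ≤ 3) →
    ((∃ r s, ∀ v, ¬ onPath T r s v → {w | T.Adj v w ∧ ¬ onPath T r s w}.ncard ≤ 2) ∨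
      (∀ u v, T.Adj u v → (T.neighborSet u).ncard = 3 → (T.neighborSet v).ncard ≠ 3) ∨
      ((∀ v, (T.neighborSet v).ncard = 3 →
          {w | T.Adj v w ∧ (T.neighborSet w).ncard = 3}.ncard ≤ 2) ∧
        (∀ u v, (T.neighborSet u).ncard = 3 → (T.neighborSet v).ncard = 3 → T.dist u v ≤ 4 →
          ∀ w, T.dist u v = T.dist u w + T.dist w v → (T.neighborSet w).ncard = 3)) ∨
      (∃ r s, HypB' T r s) ∨ (∃ r ρ, Lab T r ρ)) →
    ∀ P : Finset (ℝ × ℝ), P.card = n →
      (∀ p ∈ P, ∀ q ∈ P, p ≠ q → p.1 ≠ q.1 ∧ p.2 ≠ q.2) → Emb n T P := by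
  intro n T hT hdeg h
  rcases h with h | h | h | h | h
  · exact FINAL n T hT hdeg (Or.inl h)
  · obtain ⟨r, _⟩ := CX_leaf T hT
    exact FINAL n T hT hdeg (Or.inr (Or.inl ⟨r, r, CX_b T hT hdeg h r⟩))
  · exact FINAL n T hT hdeg (Or.inr (Or.inr (Or.inl (CX_c T hT hdeg h.1 h.2))))
  · exact FINAL n T hT hdeg (Or.inr (Or.inl h))
  · exact FINAL n T hT hdeg (Or.inr (Or.inr (Or.inr h)))

end LSH
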