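import Mathlib

set_option autoImplicit false

/-!
# L-shaped embeddings of trees (MP_60c1a7_co): definitions (project ls)

Everything is about points of the plane `ℝ × ℝ`.  An edge of a drawing is an `Edge` : two end
points `a`, `b` and a Boolean `h`; if `h = true` the horizontal segment leaves `a` (bend
`(b.1, a.2)`), if `h = false` the vertical segment leaves `a` (bend `(a.1, b.2)`).
-/

namespace LSH

abbrev Pt := ℝ × ℝ

/-- an L-shaped edge -/
structure Edge where
  a : Pt
  b : Pt
  h : Bool

/-- the point `z` lies on the edge `e` -/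
def Edge.on (e : Edge) (z : Pt) : Prop :=
  (e.h = true ∧ ((z.2 = e.a.2 ∧ z.1 ∈ Set.uIcc e.a.1 e.b.1) ∨
      (z.1 = e.b.1 ∧ z.2 ∈ Set.uIcc e.a.2 e.b.2))) ∨
  (e.h = false ∧ ((z.1 = e.a.1 ∧ z.2 ∈ Set.uIcc e.a.2 e.b.2) ∨
      (z.2 = e.b.2 ∧ z.1 ∈ Set.uIcc e.a.1 e.b.1)))

/-- two edges meet only in common end points -/
def NC (e f : Edge) : Prop :=
  ∀ z : Pt, e.on z → f.on z → (z = e.a ∨ z = e.b) ∧ (z = f.a ∨ z = f.b)

/-- orthogonal general position -/
def Gen (S : Set Pt) : Prop :=
  ∀ a ∈ S, ∀ b ∈ S, a ≠ b → a.1 ≠ b.1 ∧ a.2 ≠ b.2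

/-- shapes of rooted trees in which every vertex has at most two children -/
inductive BT : Type
  | leaf : BT
  | un : BT → BT
  | br : BT → BT → BT

/-- number of vertices -/
def BT.size : BT → ℕ
  | .leaf => 1
  | .un t => t.size + 1
  | .br s t => s.size + t.size + 1

/-- a rooted tree placed in the plane: every vertex carries its point, every child edge its
bend (`true`: the horizontal segment leaves the parent). -/
inductive PT : Type
  | leaf : Pt → PT
  | un : Pt → Bool → PT → PT
  | br : Pt → Bool → PT → Bool → PT → PT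

def PT.shape : PT → BT
  | .leaf _ => .leaf
  | .un _ _ t => .un t.shape
  | .br _ _ s _ t => .br s.shape t.shape

def PT.root : PT → Pt
  | .leaf x => x
  | .un x _ _ => x
  | .br x _ _ _ _ => x

/-- the points of a placed tree (with multiplicity) -/
def PT.pts : PT → Multiset Pt
  | .leaf x => {x}
  | .un x _ t => x ::ₘ t.pts
  | .br x _ s _ t => x ::ₘ (s.pts + t.pts)

/-- the edges of a placed tree, from the parent to the child -/
def PT.edges : PT → List Edge
  | .leaf _ => []
  | .un x h t => ⟨x, t.root, h⟩ :: t.edges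
  | .br x h s k t => (⟨x, s.root, h⟩ :: s.edges) ++ (⟨x, t.root, k⟩ :: t.edges)

/-- the edges of the placed tree `d` together with the edge from `p` to its root, with bend `h` -/
def att (p : Pt) (h : Bool) (d : PT) : List Edge := ⟨p, d.root, h⟩ :: d.edges

/-- `d` is a planar L-drawing of `t` with vertex set exactly `S` -/
def Draw (t : BT) (S : Finset Pt) (d : PT) : Prop :=
  d.shape = t ∧ d.pts = S.val ∧ d.edges.Pairwise NC

/-- `d` is a planar L-drawing of `t` with vertex set exactly `S`, also together with the edge
from `p` to its root with bend `h` -/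
def Att (p : Pt) (h : Bool) (t : BT) (S : Finset Pt) (d : PT) : Prop :=
  d.shape = t ∧ d.pts = S.val ∧ (att p h d).Pairwise NC

/-! ### The three properties of a shape -/

/-- `P(t)`: from every point `p` to the left of `S` the tree can be reached by the exit right
(the edge leaves `p` horizontally). -/
def PP (t : BT) : Prop :=
  ∀ (S : Finset Pt) (p : Pt), S.card = t.size → Gen (insert p (S : Set Pt)) →
    (∀ s ∈ S, p.1 < s.1) → ∃ d, Att p true t S d

/-- `W(t)`: from every point `p` to the left of `S` the tree can be reached by the exit right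
(`h = true`) or by the exit down (`h = false`, root below `p`). -/
def WW (t : BT) : Prop :=
  ∀ (S : Finset Pt) (p : Pt), S.card = t.size → Gen (insert p (S : Set Pt)) →
    (∀ s ∈ S, p.1 < s.1) → ∃ d h, Att p h t S d ∧ (h = true ∨ d.root.2 < p.2)

/-- `L(t)`: the tree can be drawn on every `S` with the root at the leftmost point. -/
def LL (t : BT) : Prop :=
  ∀ (S : Finset Pt), S.card = t.size → Gen (S : Set Pt) →
    ∃ d, Draw t S d ∧ ∀ s ∈ S, d.root.1 ≤ s.1

/-! ### Symmetries -/

/-- reflection in the vertical axis -/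
def fx (z : Pt) : Pt := (-z.1, z.2)
/-- reflection in the horizontal axis -/
def fy (z : Pt) : Pt := (z.1, -z.2)
/-- transposition -/
def sw (z : Pt) : Pt := (z.2, z.1)

/-- apply a map to all points of a placed tree, and `xor` the bends with `s` -/
def PT.map (g : Pt → Pt) (s : Bool) : PT → PT
  | .leaf x => .leaf (g x)
  | .un x h t => .un (g x) (xor h s) (t.map g s)
  | .br x h u k t => .br (g x) (xor h s) (u.map g s) (xor k s) (t.map g s)

end LSH
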