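import Pool.Agent.helper83.LS.Defs

set_option autoImplicit false

/-!
# Project ls (MP_60c1a7_co): statements of the modules

Module `XX`: file `Pool/Agent/<seat>/LS/XX.lean`, `import Pool.Agent.helper83.LS.Spec`,
`namespace LSH`, `theorem XX (h : YY_stmt) ... : XX_stmt` (any other statement of this file may be
used as a hypothesis), auxiliary lemmas prefixed `XX_`.  No double quotes in the file.

Basic fact used all the time: an L-edge from `a` to `b` lies in the bounding box of `a`, `b`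
(`OB_stmt`); hence all edges of a drawing on `S` lie in every box containing `S`.
-/

namespace LSH

/-! ## Basics -/

/-- `OB`: an edge lies in the box of its end points; in general position a third point is not on
the edge; the end points are on it; NC is symmetric. -/
def OB_stmt : Prop :=
  (∀ (e : Edge) (z : Pt), e.on z → z.1 ∈ Set.uIcc e.a.1 e.b.1 ∧ z.2 ∈ Set.uIcc e.a.2 e.b.2) ∧
  (∀ (S : Set Pt) (e : Edge) (m : Pt), Gen S → e.a ∈ S → e.b ∈ S → m ∈ S → e.on m →
    m = e.a ∨ m = e.b) ∧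
  (∀ (e : Edge), e.on e.a ∧ e.on e.b) ∧
  (∀ (e f : Edge), NC e f → NC f e)

/-- `EE`: the edges of a placed tree join points of the tree; the root is one of its points;
number of points. -/
def EE_stmt : Prop :=
  (∀ (d : PT) (e : Edge), e ∈ d.edges → e.a ∈ d.pts ∧ e.b ∈ d.pts) ∧
  (∀ (d : PT), d.root ∈ d.pts) ∧
  (∀ (d : PT), Multiset.card d.pts = d.shape.size) ∧
  (∀ (d : PT), d.pts.Nodup → ∀ e ∈ d.edges, e.a ≠ e.b)

/-- `SEP`: edges whose points are separated by a vertical or a horizontal line do not meet. -/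
def SEP_stmt : Prop :=
  ∀ (e f : Edge) (c : ℝ),
    ((∀ z, e.on z → z.1 ≤ c) → (∀ z, f.on z → c < z.1) → NC e f) ∧
    ((∀ z, e.on z → z.1 < c) → (∀ z, f.on z → c ≤ z.1) → NC e f) ∧
    ((∀ z, e.on z → z.2 ≤ c) → (∀ z, f.on z → c < z.2) → NC e f) ∧
    ((∀ z, e.on z → z.2 < c) → (∀ z, f.on z → c ≤ z.2) → NC e f)

/-- `AU`: assembly of `un`. -/
def AU_stmt : Prop :=
  ∀ (p q : Pt) (h₀ h : Bool) (t : BT) (R : Finset Pt) (d : PT),
    Att q h t R d → q ∉ R → (∀ e ∈ att q h d, NC ⟨p, q, h₀⟩ e) →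
    Att p h₀ (.un t) (insert q R) (.un q h d)

/-- `AB`: assembly of `br`. -/
def AB_stmt : Prop :=
  ∀ (p c : Pt) (h₀ h k : Bool) (s t : BT) (Y X : Finset Pt) (d e : PT),
    Att c h s Y d → Att c k t X e → Disjoint Y X → c ∉ Y → c ∉ X →
    (∀ f ∈ att c h d, NC ⟨p, c, h₀⟩ f) → (∀ f ∈ att c k e, NC ⟨p, c, h₀⟩ f) →
    (∀ f ∈ att c h d, ∀ g ∈ att c k e, NC f g) →
    Att p h₀ (.br s t) (insert c (Y ∪ X)) (.br c h d k e)

/-- `SX`: a prefix in the order of the first coordinate. -/
def SX_stmt : Prop :=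
  ∀ (S : Finset Pt) (k : ℕ), Gen (S : Set Pt) → k ≤ S.card →
    ∃ Q : Finset Pt, Q ⊆ S ∧ Q.card = k ∧ ∀ q ∈ Q, ∀ s ∈ S \ Q, q.1 < s.1

/-- `SY`: the top `k` points. -/
def SY_stmt : Prop :=
  ∀ (S : Finset Pt) (k : ℕ), Gen (S : Set Pt) → k ≤ S.card →
    ∃ Q : Finset Pt, Q ⊆ S ∧ Q.card = k ∧ ∀ q ∈ Q, ∀ s ∈ S \ Q, s.2 < q.2

/-- `SM`: symmetries act on drawings. -/
def SM_stmt : Prop :=
  (∀ p h t S d, Att p h t S d → Att (fx p) h t (S.image fx) (d.map fx false)) ∧
  (∀ p h t S d, Att p h t S d → Att (fy p) h t (S.image fy) (d.map fy false)) ∧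
  (∀ p h t S d, Att p h t S d → Att (sw p) (!h) t (S.image sw) (d.map sw true)) ∧
  (∀ t S d, Draw t S d → Draw t (S.image fx) (d.map fx false)) ∧
  (∀ t S d, Draw t S d → Draw t (S.image fy) (d.map fy false)) ∧
  (∀ t S d, Draw t S d → Draw t (S.image sw) (d.map sw true)) ∧
  (∀ (d : PT) (g : Pt → Pt) (s : Bool), (d.map g s).root = g d.root)

/-- `GI`: the symmetries preserve general position and cardinality. -/
def GI_stmt : Prop :=
  ∀ (p : Pt) (S : Finset Pt), Gen (insert p (S : Set Pt)) →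
    (Gen (insert (fx p) ((S.image fx : Finset Pt) : Set Pt)) ∧ (S.image fx).card = S.card) ∧
    (Gen (insert (fy p) ((S.image fy : Finset Pt) : Set Pt)) ∧ (S.image fy).card = S.card) ∧
    (Gen (insert (sw p) ((S.image sw : Finset Pt) : Set Pt)) ∧ (S.image sw).card = S.card)

/-! ## The three properties in the other directions (from SM, GI) -/

/-- `DP`: `P(t)` to the left, upwards, downwards. -/
def DP_stmt : Prop :=
  ∀ t, PP t → ∀ (S : Finset Pt) (p : Pt), S.card = t.size → Gen (insert p (S : Set Pt)) →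
    ((∀ s ∈ S, s.1 < p.1) → ∃ d, Att p true t S d) ∧
    ((∀ s ∈ S, p.2 < s.2) → ∃ d, Att p false t S d) ∧
    ((∀ s ∈ S, s.2 < p.2) → ∃ d, Att p false t S d)

/-- `DW`: `W(t)` with the exits right and up; the corners (exit up for a corner below and to the
left, exit down for a corner above and to the left: only one exit is needed). -/
def DW_stmt : Prop :=
  ∀ t, WW t → ∀ (S : Finset Pt) (p : Pt), S.card = t.size → Gen (insert p (S : Set Pt)) →
    ((∀ s ∈ S, p.1 < s.1) → ∃ d h, Att p h t S d ∧ (h = true ∨ p.2 < d.root.2)) ∧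
    ((∀ s ∈ S, p.1 < s.1 ∧ p.2 < s.2) → ∃ d, Att p false t S d) ∧
    ((∀ s ∈ S, p.1 < s.1 ∧ s.2 < p.2) → ∃ d, Att p false t S d)

/-- `DL`: `L(t)` with the root at the rightmost, lowest, topmost point. -/
def DL_stmt : Prop :=
  ∀ t, LL t → ∀ (S : Finset Pt), S.card = t.size → Gen (S : Set Pt) →
    (∃ d, Draw t S d ∧ ∀ s ∈ S, s.1 ≤ d.root.1) ∧
    (∃ d, Draw t S d ∧ ∀ s ∈ S, d.root.2 ≤ s.2) ∧
    (∃ d, Draw t S d ∧ ∀ s ∈ S, s.2 ≤ d.root.2)

/-- `FA` (full attachment): if `L(t)`, a point `p` beyond `S` (to the left, right, below, above)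
can be joined to the nearest point of `S`, the edge entering the free port of the root:
for `p` to the left or right the edge is vertical at `p` (`h = false`), for `p` below or above it
is horizontal at `p` (`h = true`).  From `LL`, `DL`, `OB`, `EE`: the new edge meets the vertical
(horizontal) line through the root only in the root, and all other edges are beyond that line;
a point of `S` on an edge is an end point of it. -/
def FA_stmt : Prop :=
  ∀ t, LL t → ∀ (S : Finset Pt) (p : Pt), S.card = t.size → Gen (insert p (S : Set Pt)) →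
    ((∀ s ∈ S, p.1 < s.1) → ∃ d, Att p false t S d ∧ ∀ s ∈ S, d.root.1 ≤ s.1) ∧
    ((∀ s ∈ S, s.1 < p.1) → ∃ d, Att p false t S d ∧ ∀ s ∈ S, s.1 ≤ d.root.1) ∧
    ((∀ s ∈ S, p.2 < s.2) → ∃ d, Att p true t S d ∧ ∀ s ∈ S, d.root.2 ≤ s.2) ∧
    ((∀ s ∈ S, s.2 < p.2) → ∃ d, Att p true t S d ∧ ∀ s ∈ S, s.2 ≤ d.root.2)

/-! ## The rules -/

/-- `RP`: `P(leaf)`, `W(t) → P(un t)`, `P(t) → W(t)`.
`P(un t)`: root = leftmost point `y` of `S` (edge `(p, y, true)`); the rest by `W` with the exits
right and down (if `y` is below `p`; the edge `p y` enters the top of `y`) or right and up (if `y`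
is above `p`, `DW`).  The edge `p y` lies in `x ≤ y.1`, all others in `x ≥ y.1`; on the line
`x = y.1` they meet only in `y`. -/
def RP_stmt : Prop :=
  PP .leaf ∧ (∀ t, WW t → PP (.un t)) ∧ (∀ t, PP t → WW t)

/-- `RW1`: the case of `W(br(s,t))` from `P(s)`, `W(t)` in which some point of the prefix `Q`
(`|Q| = |s| + 1` leftmost points) is below `p`: root `c` = lowest point of `Q`, edge
`(p, c, false)` (down, enters the left port of `c`), `s` on `Q \ {c}` by the exit up of `c`
(`DP`), `t` on `S \ Q` by the exits right and down (`WW`). -/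
def RW1_stmt : Prop :=
  ∀ s t, PP s → WW t → ∀ (S Q : Finset Pt) (p : Pt), S.card = (BT.br s t).size →
    Gen (insert p (S : Set Pt)) → (∀ z ∈ S, p.1 < z.1) → Q ⊆ S → Q.card = s.size + 1 →
    (∀ q ∈ Q, ∀ z ∈ S \ Q, q.1 < z.1) → (∃ q ∈ Q, q.2 < p.2) →
    ∃ d, Att p false (.br s t) S d ∧ d.root.2 < p.2

/-- `RW2`: the other case, all points of `Q` above `p`: root `c` = rightmost point of `Q`, edge
`(p, c, true)` (right, enters the bottom port of `c`), `s` on `Q \ {c}` by the exit left of `c`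
(`DP`), `t` on `S \ Q` by the exits right and up (`DW`). -/
def RW2_stmt : Prop :=
  ∀ s t, PP s → WW t → ∀ (S Q : Finset Pt) (p : Pt), S.card = (BT.br s t).size →
    Gen (insert p (S : Set Pt)) → (∀ z ∈ S, p.1 < z.1) → Q ⊆ S → Q.card = s.size + 1 →
    (∀ q ∈ Q, ∀ z ∈ S \ Q, q.1 < z.1) → (∀ q ∈ Q, p.2 < q.2) →
    ∃ d, Att p true (.br s t) S d

/-- `RW` (from `RW1`, `RW2`, `SX`): `P(s)`, `W(t)` imply `W(br(s,t))` and `W(br(t,s))`. -/
def RW_stmt : Prop :=
  ∀ s t, PP s → WW t → WW (.br s t) ∧ WW (.br t s)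

/-- `RL1`: `L(leaf)`, and `L(t) → L(un t)` (root = leftmost point, then `FA`). -/
def RL1_stmt : Prop :=
  LL .leaf ∧ (∀ t, LL t → LL (.un t))

/-- `RL2`: `L(br(s,t))` from `W(s)`, `W(t)`.  Root `w` = leftmost point, `R` the rest.  If at
least `|s|` points of `R` are above `w`: `s` on the top `|s|` points of `R` by the exit up
(corner, `DW`), `t` on the rest by the exits right and down (`WW`).  Otherwise at least `|t|`
points of `R` are below `w`: reflect (`SM`), or directly `t` on the bottom `|t|` points by the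
exit down (`DW`), `s` on the rest by the exits right and up (`DW`). -/
def RL2_stmt : Prop :=
  ∀ s t, WW s → WW t → LL (.br s t)

/-- `U3a`: `W(un(un(un t)))` from `L(t)` in the easy cases: the leftmost point is below `p`
(root there, edge `(p, z, false)`, then `FA` for `un(un t)`, `RL1`), or all points are above `p`
(root = lowest point, edge `(p, z, true)` entering the bottom port: `FA` from below for the whole
tree `un(un(un t))`). -/
def U3a_stmt : Prop :=
  ∀ t, LL t → ∀ (S : Finset Pt) (p : Pt), S.card = t.size + 3 → Gen (insert p (S : Set Pt)) →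
    (∀ z ∈ S, p.1 < z.1) →
    ((∃ z ∈ S, (∀ s ∈ S, z.1 ≤ s.1) ∧ z.2 < p.2) ∨ (∀ s ∈ S, p.2 < s.2)) →
    ∃ d h, Att p h (.un (.un (.un t))) S d ∧ (h = true ∨ d.root.2 < p.2)

/-- `U3b`: the leftmost point `z` is above `p` and (it is the topmost point, or the topmost point
is the rightmost one).  Edges `(p, z, true)`; in the first case the rest lies below `z` and is
attached by `FA` from above (`un(un t)`, exit right or left of `z`: it is the exit right since
the rest lies to the right); in the second case the edge `(z, T, false)` (up, then right into the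
left port of the topmost = rightmost point `T`), then `FA` to the left of `T` (`un t`, edge
vertical at `T`, exit down). -/
def U3b_stmt : Prop :=
  ∀ t, LL t → ∀ (S : Finset Pt) (p z T : Pt), S.card = t.size + 3 →
    Gen (insert p (S : Set Pt)) → (∀ s ∈ S, p.1 < s.1) →
    z ∈ S → (∀ s ∈ S, z.1 ≤ s.1) → p.2 < z.2 → T ∈ S → (∀ s ∈ S, s.2 ≤ T.2) →
    (T = z ∨ ∀ s ∈ S, s.1 ≤ T.1) →
    ∃ d h, Att p h (.un (.un (.un t))) S d ∧ (h = true ∨ d.root.2 < p.2)

/-- `U3c`: the lowest point `M` is below `p` and is the rightmost point: edge `(p, M, false)`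
(down, enters the left port), all other points are above and to the left of `M`: `FA` from the
right for `un(un t)` (edge vertical at `M`, exit up). -/
def U3c_stmt : Prop :=
  ∀ t, LL t → ∀ (S : Finset Pt) (p M : Pt), S.card = t.size + 3 →
    Gen (insert p (S : Set Pt)) → (∀ s ∈ S, p.1 < s.1) →
    M ∈ S → (∀ s ∈ S, M.2 ≤ s.2) → M.2 < p.2 → (∀ s ∈ S, s.1 ≤ M.1) →
    ∃ d h, Att p h (.un (.un (.un t))) S d ∧ (h = true ∨ d.root.2 < p.2)

/-- `U3d` (path A): leftmost point `z` above `p`, topmost point `T ≠ z`, and the highest point `g`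
of `S \ {z, T}` is to the right of `T`.  Edges `(p, z, true)` (enters the bottom port of `z`),
`(z, T, false)` (enters the left port of `T`), then `S \ {z, T}` from above by `FA` for `un t`
(edge `(T, g, true)`, exit right of `T`, since `g` is to the right of `T`; the root given by `FA`
is the highest point, hence `g`). -/
def U3d_stmt : Prop :=
  ∀ t, LL t → ∀ (S : Finset Pt) (p z T g : Pt), S.card = t.size + 3 →
    Gen (insert p (S : Set Pt)) → (∀ s ∈ S, p.1 < s.1) →
    z ∈ S → (∀ s ∈ S, z.1 ≤ s.1) → p.2 < z.2 → T ∈ S → (∀ s ∈ S, s.2 ≤ T.2) → T ≠ z →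
    g ∈ S → g ≠ z → g ≠ T → (∀ s ∈ S, s ≠ z → s ≠ T → s.2 ≤ g.2) → T.1 < g.1 →
    ∃ d h, Att p h (.un (.un (.un t))) S d ∧ (h = true ∨ d.root.2 < p.2)

/-- `U3e` (path B): lowest point `M` below `p`, rightmost point `N`, topmost point `T`, all
different, and the highest point `g` of `S \ {M, N, T}` is to the left of `T`.  Edges
`(p, M, false)` (enters the left port of `M`), `(M, N, true)` (runs below everything, enters the
bottom port of `N`), `(N, T, false)` (up, then left into the right port of `T`), then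
`S \ {M, N, T}` from above by `FA` for `t` (edge `(T, g, true)`, exit left of `T`). -/
def U3e_stmt : Prop :=
  ∀ t, LL t → ∀ (S : Finset Pt) (p M N T g : Pt), S.card = t.size + 3 →
    Gen (insert p (S : Set Pt)) → (∀ s ∈ S, p.1 < s.1) →
    M ∈ S → (∀ s ∈ S, M.2 ≤ s.2) → M.2 < p.2 → N ∈ S → (∀ s ∈ S, s.1 ≤ N.1) →
    T ∈ S → (∀ s ∈ S, s.2 ≤ T.2) → M ≠ N → M ≠ T → N ≠ T →
    g ∈ S → g ≠ M → g ≠ N → g ≠ T → (∀ s ∈ S, s ≠ M → s ≠ N → s ≠ T → s.2 ≤ g.2) →
    g.1 < T.1 →
    ∃ d h, Att p h (.un (.un (.un t))) S d ∧ (h = true ∨ d.root.2 < p.2)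

/-- `U3` (from `U3a` .. `U3e`): `L(t)` implies `W(un(un(un t)))`.  If `z` (leftmost) is above `p`,
`M` (lowest) below `p`, `T ≠ z`, `T ≠ N`, `M ≠ N`: let `g` be the highest point of `S \ {z, T}`
and `g'` the highest point of `S \ {M, N, T}`.  If `g` is right of `T`: path A.  If `g'` is left
of `T`: path B.  Otherwise `g` is left of `T`, `g'` right of `T`; `g ≠ N` (`N` is right of `T`),
`g' ≠ z`; so `g'.2 ≤ g.2`; if `g ≠ M` then `g.2 ≤ g'.2`, hence `g = g'`, contradiction; if `g = M`
then `S = {z, T, M}`, impossible since `g'` exists and is none of them (or `N` is another one). -/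
def U3_stmt : Prop := ∀ t, LL t → WW (.un (.un (.un t)))

/-! ## The class of shapes -/

def BT.isBr : BT → Prop
  | .br _ _ => True
  | _ => False

/-- `dbl k t`: `t = un^j(br(a,b))` with `j ≤ k` and `a`, `b` both branching -/
def dbl : ℕ → BT → Prop
  | _, .leaf => False
  | _, .br a b => a.isBr ∧ b.isBr
  | 0, .un _ => False
  | k + 1, .un t => dbl k t

/-- the class: no branching vertex has a child `t` with `dbl 3 t` -/
def Cl : BT → Prop
  | .leaf => True
  | .un t => Cl t
  | .br a b => Cl a ∧ Cl b ∧ ¬ dbl 3 a ∧ ¬ dbl 3 b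

/-- `CC` (from the rules, induction on `t`): in the class `L(t)` holds, `W(t)` holds unless
`dbl 2 t`, `P(t)` holds if `t` is not branching and not `dbl 3 t`. -/
def CC_stmt : Prop :=
  ∀ t, Cl t → LL t ∧ (¬ dbl 2 t → WW t) ∧ (¬ t.isBr → ¬ dbl 3 t → PP t)

/-! ## From graphs to shapes -/

/-- rooted trees with labelled vertices -/
inductive LT (V : Type) : Type
  | leaf : V → LT V
  | un : V → LT V → LT V
  | br : V → LT V → LT V → LT V

def LT.shape {V : Type} : LT V → BT
  | .leaf _ => .leaf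
  | .un _ t => .un t.shape
  | .br _ s t => .br s.shape t.shape

def LT.root {V : Type} : LT V → V
  | .leaf v => v
  | .un v _ => v
  | .br v _ _ => v

def LT.verts {V : Type} : LT V → List V
  | .leaf v => [v]
  | .un v t => v :: t.verts
  | .br v s t => v :: (s.verts ++ t.verts)

/-- (parent, child) pairs -/
def LT.edg {V : Type} : LT V → List (V × V)
  | .leaf _ => []
  | .un v t => (v, t.root) :: t.edg
  | .br v s t => ((v, s.root) :: s.edg) ++ ((v, t.root) :: t.edg)

/-- `TR`: distances in a tree. -/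
def TR_stmt : Prop :=
  ∀ (n : ℕ) (T : SimpleGraph (Fin n)), T.IsTree → ∀ r : Fin n,
    (∀ u v, T.Adj u v → T.dist r v = T.dist r u + 1 ∨ T.dist r u = T.dist r v + 1) ∧
    (∀ v, v ≠ r → ∃! u, T.Adj u v ∧ T.dist r v = T.dist r u + 1) ∧
    (∀ u v w, T.Adj v w → T.dist r w = T.dist r v + 1 → T.dist r v = T.dist r u + T.dist u v →
      T.dist r w = T.dist r u + T.dist u w)

/-- `RE` (from `TR`; induction on `n - dist r v`, the descendants of `v` are the vertices `w` whose
iterated parent is `v`): the rooted tree of descendants of a vertex. -/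
def RE_stmt : Prop :=
  ∀ (n : ℕ) (T : SimpleGraph (Fin n)), T.IsTree → (∀ v, (T.neighborSet v).ncard ≤ 3) →
    ∀ r : Fin n, (T.neighborSet r).ncard ≤ 2 →
    ∃ t : LT (Fin n), t.root = r ∧ t.verts.Nodup ∧ (∀ v, v ∈ t.verts) ∧
      ∀ u v, (u, v) ∈ t.edg ↔ (T.Adj u v ∧ T.dist r v = T.dist r u + 1)

/-- the hypothesis on the tree: `r` has degree at most 2 and every other vertex has at most one
child of degree 3, or else each of its four nearest proper ancestors has at most one child. -/
def HypB (n : ℕ) (T : SimpleGraph (Fin n)) (r : Fin n) : Prop :=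
  (T.neighborSet r).ncard ≤ 2 ∧
  ∀ v, v ≠ r →
    {w | T.Adj v w ∧ T.dist r w = T.dist r v + 1 ∧ (T.neighborSet w).ncard = 3}.ncard ≤ 1 ∨
    ∀ u, u ≠ v → T.dist r v = T.dist r u + T.dist u v → T.dist u v ≤ 4 →
      {w | T.Adj u w ∧ T.dist r w = T.dist r u + 1}.ncard ≤ 1

/-- `KL` (from `TR`): under `HypB` the shape of the rooted tree is in the class. A branching vertex
`w ≠ r` of the rooted tree has degree 3 (two children and a parent).  If a branching vertex `u` has
a child `a` with `dbl 3 a`, then the branching vertex `w` with two branching children below it has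
two children of degree 3, and `dist u w ≤ 4`, `dist r w = dist r u + dist u w` (`TR`), and `u` has
two children: contradiction. -/
def KL_stmt : Prop :=
  ∀ (n : ℕ) (T : SimpleGraph (Fin n)), T.IsTree → (∀ v, (T.neighborSet v).ncard ≤ 3) →
    ∀ r : Fin n, HypB n T r → ∀ t : LT (Fin n), t.root = r → t.verts.Nodup →
      (∀ u v, (u, v) ∈ t.edg ↔ (T.Adj u v ∧ T.dist r v = T.dist r u + 1)) → Cl t.shape

/-- `ZP`: a placed tree with the same shape gives the positions of the labelled vertices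
(induction on `t`; glue the functions along `t.verts`, which has no duplicates). -/
def ZP_stmt : Prop :=
  ∀ (V : Type) (t : LT V) (d : PT), t.verts.Nodup → d.shape = t.shape →
    ∃ (f : V → Pt) (b : V → Bool), ((t.verts.map f : List Pt) : Multiset Pt) = d.pts ∧
      f t.root = d.root ∧ d.edges = t.edg.map (fun e => (⟨f e.1, f e.2, b e.2⟩ : Edge))

/-- the conclusion of the problem for the tree `T` and the point set `P` -/
def Emb (n : ℕ) (T : SimpleGraph (Fin n)) (P : Finset (ℝ × ℝ)) : Prop :=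
  ∃ (f : Fin n → ℝ × ℝ) (c : Fin n → Fin n → ℝ × ℝ),
    Function.Injective f ∧ (∀ i, f i ∈ P) ∧
    (∀ u v, T.Adj u v → c u v = c v u ∧
        (c u v = ((f u).1, (f v).2) ∨ c u v = ((f v).1, (f u).2))) ∧
    (∀ u v w, T.Adj u v → w ≠ u → w ≠ v →
        f w ∉ segment ℝ (f u) (c u v) ∪ segment ℝ (c u v) (f v)) ∧
    (∀ u v u' v', T.Adj u v → T.Adj u' v' →
        ¬ (u = u' ∧ v = v') → ¬ (u = v' ∧ v = u') →
        (segment ℝ (f u) (c u v) ∪ segment ℝ (c u v) (f v)) ∩
          (segment ℝ (f u') (c u' v') ∪ segment ℝ (c u' v') (f v'))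
          ⊆ ({f u, f v} ∩ {f u', f v'} : Set (ℝ × ℝ)))

/-- `SG`: the points of an edge are the two segments of the problem. -/
def SG_stmt : Prop :=
  ∀ (a b z : Pt),
    ((⟨a, b, true⟩ : Edge).on z ↔
      z ∈ segment ℝ a ((b.1, a.2) : Pt) ∪ segment ℝ ((b.1, a.2) : Pt) b) ∧
    ((⟨a, b, false⟩ : Edge).on z ↔
      z ∈ segment ℝ a ((a.1, b.2) : Pt) ∪ segment ℝ ((a.1, b.2) : Pt) b)

/-- `EM` (from `ZP`, `SG`, `TR`, `OB`): a drawing of the shape of the rooted tree on `P` gives an
embedding of `T` on `P`. `f` from `ZP`; for an edge with child `v` and parent `u` the bend is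
`((f v).1, (f u).2)` if `b v = true` and `((f u).1, (f v).2)` otherwise. Distinct edges of `T`
are distinct members of the list `t.edg` (distinct children, since `t.edg` has no duplicates), so
`Pairwise` applies; a vertex `w` on an edge `u v` is excluded by general position of `P`. -/
def EM_stmt : Prop :=
  ∀ (n : ℕ) (T : SimpleGraph (Fin n)), T.IsTree → ∀ (r : Fin n) (t : LT (Fin n)),
    t.root = r → t.verts.Nodup → (∀ v, v ∈ t.verts) →
    (∀ u v, (u, v) ∈ t.edg ↔ (T.Adj u v ∧ T.dist r v = T.dist r u + 1)) →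
    ∀ (P : Finset Pt), P.card = n → Gen (P : Set Pt) → ∀ d, Draw t.shape P d → Emb n T P

/-- the final theorem -/
def FIN_stmt : Prop :=
  ∀ (n : ℕ) (T : SimpleGraph (Fin n)), T.IsTree → (∀ v, (T.neighborSet v).ncard ≤ 3) →
    (∃ r, HypB n T r) → ∀ P : Finset (ℝ × ℝ), P.card = n →
      (∀ p ∈ P, ∀ q ∈ P, p ≠ q → p.1 ≠ q.1 ∧ p.2 ≠ q.2) → Emb n T P

end LSH
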