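import Pool.Agent.helper83.LS.Spec

set_option autoImplicit false

/-!
# Project ls, part 2: the stronger rule for `L` and the path version of the theorem

Module `XX`: file `Pool/Agent/<seat>/LS/XX.lean`, `import Pool.Agent.helper83.LS.Spec2`,
`namespace LSH`, same rules as for `Spec`.
-/

namespace LSH

/-- `SWP`: the order of the two children does not matter. -/
def SWP_stmt : Prop :=
  ∀ (s t : BT) (S : Finset Pt) (d : PT), Draw (.br s t) S d →
    ∃ e, Draw (.br t s) S e ∧ e.root = d.root

/-- `RL3a`: `w` = leftmost point of `S`, `z` = second leftmost point, `z` below `w`.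
Root `w`, `R = S \ {w}`.
(i) If at least `|s|` points of `R` are below `w`: `s` on the bottom `|s|` points of `R` by `FA`
(from the left, edge vertical at `w`, going down), `t` on the rest by the exits right and up
(`DW`, first part).
(ii) Otherwise more than `|t|` points of `R` are above `w`: `t` on the top `|t|` points of `R` by
the exit up (corner, `DW`, second part); the rest of `R` contains all points below `w`, in
particular `z`, which is its leftmost point: `s` on the rest by `FA` (from the left, the root is
`z`, the edge is vertical at `w` and goes down). -/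
def RL3a_stmt : Prop :=
  ∀ s t, LL s → WW t → ∀ (S : Finset Pt) (w z : Pt), S.card = s.size + t.size + 1 →
    Gen (S : Set Pt) → w ∈ S → (∀ x ∈ S, w.1 ≤ x.1) → z ∈ S → z ≠ w →
    (∀ x ∈ S, x ≠ w → z.1 ≤ x.1) → z.2 < w.2 → ∃ d, Draw (.br s t) S d ∧ d.root = w

/-- `RL3b`: the same with `z` above `w` (reflect, `SM`, or repeat the proof). -/
def RL3b_stmt : Prop :=
  ∀ s t, LL s → WW t → ∀ (S : Finset Pt) (w z : Pt), S.card = s.size + t.size + 1 →
    Gen (S : Set Pt) → w ∈ S → (∀ x ∈ S, w.1 ≤ x.1) → z ∈ S → z ≠ w →
    (∀ x ∈ S, x ≠ w → z.1 ≤ x.1) → w.2 < z.2 → ∃ d, Draw (.br s t) S d ∧ d.root = w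

/-- `RL3` (from `RL3a`, `RL3b`, `SWP`): `L(s)` and `W(t)` imply `L(br(s,t))` and `L(br(t,s))`. -/
def RL3_stmt : Prop :=
  ∀ s t, LL s → WW t → LL (.br s t) ∧ LL (.br t s)

/-- shapes with a spine starting at the root such that the other children along the spine are in
the class `Cl` and not `dbl 3` -/
inductive ClP : BT → Prop
  | base (t : BT) : Cl t → ClP t
  | un (t : BT) : ClP t → ClP (.un t)
  | brl (a b : BT) : ClP a → Cl b → ¬ dbl 3 b → ClP (.br a b)
  | brr (a b : BT) : Cl a → ¬ dbl 3 a → ClP b → ClP (.br a b)

/-- `CCP` (from `CC`, `RL1`, `RL3`; `dbl 2 b` implies `dbl 3 b`). -/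
def CCP_stmt : Prop := ∀ t, ClP t → LL t

/-- the hypothesis of the path version: `r` has degree at most 2, and every vertex `v` is on the
path from `r` to `s`, or has at most one child of degree 3, or each of its (at most) four nearest
proper ancestors has at most one child. -/
def HypD (n : ℕ) (T : SimpleGraph (Fin n)) (r s : Fin n) : Prop :=
  (T.neighborSet r).ncard ≤ 2 ∧
  ∀ v, T.dist r s = T.dist r v + T.dist v s ∨
    {w | T.Adj v w ∧ T.dist r w = T.dist r v + 1 ∧ (T.neighborSet w).ncard = 3}.ncard ≤ 1 ∨
    ∀ u, u ≠ v → T.dist r v = T.dist r u + T.dist u v → T.dist u v ≤ 4 →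
      {w | T.Adj u w ∧ T.dist r w = T.dist r u + 1}.ncard ≤ 1

/-- `KLP` (compare `KL` of helper82, which can be generalised): under `HypD` the shape of the
rooted tree has `ClP`.  Induction along the path: let `v` be on the path from `r` to `s`.
If `v = s`, all proper descendants of `v` are off the path, so the shape of the subtree of `v` is
in `Cl` (as in `KL`; if `v` has two children `a`, `b`, then `dbl 3 a` is impossible because the
vertex `x` below with two branching children would have the proper ancestor `v` with two children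
at distance at most 4, and `x` has two children of degree 3, and is off the path).
If `v ≠ s`, exactly one child of `v` is on the path (`ClP` by induction); the other child, if
there is one, is off the path together with all its descendants: `Cl`, and not `dbl 3`, as
before. -/
def KLP_stmt : Prop :=
  ∀ (n : ℕ) (T : SimpleGraph (Fin n)), T.IsTree → (∀ v, (T.neighborSet v).ncard ≤ 3) →
    ∀ r s : Fin n, HypD n T r s → ∀ t : LT (Fin n), t.root = r → t.verts.Nodup →
      (∀ v, v ∈ t.verts) →
      (∀ u v, (u, v) ∈ t.edg ↔ (T.Adj u v ∧ T.dist r v = T.dist r u + 1)) → ClP t.shape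

/-- the final theorem, path version -/
def FIND_stmt : Prop :=
  ∀ (n : ℕ) (T : SimpleGraph (Fin n)), T.IsTree → (∀ v, (T.neighborSet v).ncard ≤ 3) →
    (∃ r s, HypD n T r s) → ∀ P : Finset (ℝ × ℝ), P.card = n →
      (∀ p ∈ P, ∀ q ∈ P, p ≠ q → p.1 ≠ q.1 ∧ p.2 ≠ q.2) → Emb n T P

end LSH
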